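import Pool.Agent.KS6_42.MS.Defs
import Pool.Agent.KS6_42.MS.Vert
import Pool.Agent.KS6_42.MS.AD
import Pool.Agent.KS6_42.MS.E6
import Pool.Agent.KS6_42.MS.E7
import Pool.Agent.KS6_42.MS.E8

/-!
# No `ℳ`-structure corresponds to `(Γ, m)`, for every `Γ` and every `m ≥ 2`

The element `1` of a weak `ℳ`-structure corresponding to `(Γ, m)` is a representation of the
bipartite quiver `Γ` of dimension `m J`, and `𝒜 ∩ ℬ = ℂ 1` says that its only endomorphisms are the
scalars. We show that for `m ≥ 2` every representation of dimension `m J` has a nonscalar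
endomorphism.

* For every `Γ` there are two representations `W₀`, `W₁` of dimension `J` with
  `Hom(W₀, W₁) = Hom(W₁, W₀) = 0`; as the Euler form of `J` with itself vanishes, also the maps
  `(α, β) ↦ W₁ α - β W₀` and `(α, β) ↦ W₀ α - β W₁` are surjective.
* By the implicit function theorem every representation near `W₀ ⊕ W₁^(m-1)` is decomposable, so
  that its endomorphism ring has dimension at least two.
* The last property, if it holds for infinitely many points of a line, holds for all its points.
-/

set_option autoImplicit false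

open MulOpposite Matrix

namespace Pool.Agent.Results.MP_b9cab9_al.NoMultiples

open Pool.Agent.KS6_42.MS

/-- The adjacency is symmetric. -/
theorem diagram_symm (Γ : BipAffine) (x y : Γ.diagram.Vert) :
    Γ.diagram.adj x y = Γ.diagram.adj y x := by
  cases Γ with
  | A k => exact adjA_symm k x y
  | D n => exact adjD_symm n x y
  | E6 => exact e6_symm x y
  | E7 => exact e7_symm x y
  | E8 => exact e8_symm x y

/-- The vector `J` is in the kernel of the Cartan matrix. -/
theorem diagram_balance (Γ : BipAffine) (x : Γ.diagram.Vert) :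
    (letI := Γ.diagram.fintype; ∑ y, Γ.diagram.adj x y * Γ.diagram.J y) = 2 * Γ.diagram.J x := by
  cases Γ with
  | A k => exact a_balance k x
  | D n => exact d_balance n x
  | E6 => exact e6_balance x
  | E7 => exact e7_balance x
  | E8 => exact e8_balance x

/-- The vector `J` has a coordinate equal to one, so it is not a proper multiple. -/
theorem diagram_one (Γ : BipAffine) : ∃ x, Γ.diagram.J x = 1 := by
  cases Γ with
  | A k => exact ⟨(0 : Fin (2 * k + 2)), rfl⟩
  | D n => exact ⟨(Sum.inr 0 : VertD n), rfl⟩
  | E6 => exact ⟨(2 : Fin 7), rfl⟩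
  | E7 => exact ⟨(4 : Fin 8), rfl⟩
  | E8 => exact ⟨(8 : Fin 9), rfl⟩

/-- There are orthogonal representations of dimension `J`. -/
theorem diagram_pairs (Γ : BipAffine) : HasPairs Γ.diagram.adj Γ.diagram.J := by
  cases Γ with
  | A k => exact a_pairs k
  | D n => exact d_pairs n
  | E6 => exact e6_pairs
  | E7 => exact e7_pairs
  | E8 => exact e8_pairs

/-- **The answer to Q1**: for every bipartite affine diagram `Γ` and every `m ≥ 2` no weak
`ℳ`-structure, in particular no `ℳ`-structure, corresponds to `(Γ, m)`. -/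
theorem result (Γ : BipAffine) (m : ℕ) (hm : 2 ≤ m) (𝒜 ℬ L : Type*) [Ring 𝒜] [Algebra ℂ 𝒜]
    [Ring ℬ] [Algebra ℂ ℬ] [AddCommGroup L] [Module ℂ L] (S : WeakMStructure 𝒜 ℬ L) :
    IsEmpty (Corresponds Γ.diagram m S.toActions) := by
  refine ⟨fun C => ?_⟩
  let _ := Γ.diagram.fintype
  set M := C.mult with hM
  set φ := M.eL (S.iA 1) with hφ
  obtain ⟨α, β, h1, h2⟩ := (diagram_pairs Γ).exists_endo C.col.vert (diagram_symm Γ)
    (diagram_balance Γ) (by obtain ⟨x, hx⟩ := diagram_one Γ; exact ⟨x, by rw [hx]; exact one_pos⟩)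
    C.col.colourV C.col.colourW hm
    (fun i => Fin (C.col.m m i)) (fun j => Fin (C.col.n m j))
    (fun i => finProdFinEquiv.symm.trans (Equiv.prodComm _ _))
    (fun j => finProdFinEquiv.symm.trans (Equiv.prodComm _ _)) φ
  apply h2
  set x : 𝒜 := M.eA.symm α with hx
  set y : ℬ := M.eB.symm β with hy
  have e3 : M.eA x = α := by rw [hx, AlgEquiv.apply_symm_apply]
  have e4 : M.eB y = β := by rw [hy, AlgEquiv.apply_symm_apply]
  have hxy : S.iB y = S.iA x := by
    apply M.eL.injective
    funext i j k
    have e1 : S.iB y = S.toActions.l y (S.iB 1) :=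
      (congrArg S.iB (mul_one y)).symm.trans (S.restrict.left y 1).symm
    have e2 : S.iA x = S.toActions.r (S.iA 1) x :=
      (congrArg S.iA (one_mul x)).symm.trans (S.restrict.right 1 x).symm
    have e5 := M.left y (S.iB 1) i j k
    have e6 := M.right x (S.iA 1) i j k
    rw [← e1, ← S.one_eq, coordA, e4] at e5
    rw [← e2, coordA, e3] at e6
    exact e5.trans ((h1 i j k).symm.trans e6.symm)
  obtain ⟨c, hc⟩ := S.inter x y hxy.symm
  refine ⟨c, ?_, ?_⟩
  · have e1 : x = c • 1 := by
      apply S.iA_injective
      rw [hc, map_smul]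
    rw [← e3, e1, map_smul, map_one]
  · have e1 : y = c • 1 := by
      apply S.iB_injective
      rw [hxy, hc, map_smul, S.one_eq]
    rw [← e4, e1, map_smul, map_one]

end Pool.Agent.Results.MP_b9cab9_al.NoMultiples
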